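import Mathlib

/-!
# Galois closure over a `k`-element set versus Wielandt `m`-closure

For all `n, k ≥ 2` the least `m ≥ 1` such that every subgroup of `S_n` which is Galois closed over
a `k`-element set is `m`-closed equals `⌊n (k - 1) / k⌋ = n - ⌈n / k⌉`.
-/

namespace Pool.Agent.Results.MP_4c291d_al.ClosureThreshold

open Equiv

/-- A subgroup `G` of `S_n` is Galois closed over a set with `k` elements: it is the group of all
permutations under which every member of some set `F` of functions of `n` variables on that set,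
with values in that set, is invariant. -/
def GaloisClosed (n k : ℕ) (G : Subgroup (Perm (Fin n))) : Prop :=
  ∃ F : Set ((Fin n → Fin k) → Fin k), ∀ σ : Perm (Fin n),
    σ ∈ G ↔ ∀ f ∈ F, ∀ a : Fin n → Fin k, f (fun i => a (σ i)) = f a

/-- A subgroup `G` of `S_n` is `m`-closed (Wielandt): it is the group of all permutations which
preserve every member of some set `R` of `m`-ary relations on the `n` points. -/
def MClosed (n m : ℕ) (G : Subgroup (Perm (Fin n))) : Prop :=
  ∃ R : Set (Set (Fin m → Fin n)), ∀ σ : Perm (Fin n),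
    σ ∈ G ↔ ∀ ρ ∈ R, ∀ r ∈ ρ, (fun i => σ (r i)) ∈ ρ

lemma arith (n k : ℕ) (hn : 1 ≤ n) (hk : 1 ≤ k) :
    n * (k - 1) / k + ((n - 1) / k + 1) = n := by
  obtain ⟨n, rfl⟩ : ∃ n', n = n' + 1 := ⟨n - 1, by omega⟩
  obtain ⟨k, rfl⟩ : ∃ k', k = k' + 1 := ⟨k - 1, by omega⟩
  simp only [Nat.add_sub_cancel]
  set q := n / (k + 1) with hq
  set s := n % (k + 1) with hs
  have h1 : n = (k + 1) * q + s := (Nat.div_add_mod n (k + 1)).symm
  have h2 : s < k + 1 := Nat.mod_lt _ (Nat.succ_pos k)
  have h3 : (n + 1) * k = (k + 1) * (n - q) + (k - s) := by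
    have hqn : q ≤ n := Nat.div_le_self _ _
    zify [hqn, show s ≤ k by omega]
    have : (n : ℤ) = (k + 1) * q + s := by exact_mod_cast h1
    linear_combination -this
  have h4 : (n + 1) * k / (k + 1) = n - q := by
    rw [h3, Nat.mul_add_div (Nat.succ_pos k), Nat.div_eq_of_lt (by omega), add_zero]
  have h5 : q ≤ n := Nat.div_le_self _ _
  rw [h4]
  omega

/-- A tuple listing a small set of points. -/
lemma exists_tuple {n m : ℕ} (hn : 0 < n) (S : Finset (Fin n)) (hS : S.card ≤ m) :
    ∃ r : Fin m → Fin n, ∀ i ∈ S, ∃ j, r j = i := by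
  classical
  refine ⟨fun j => if h : (j : ℕ) < S.card then (S.equivFin.symm ⟨j, h⟩ : S) else ⟨0, hn⟩, ?_⟩
  intro i hi
  have hlt : ((S.equivFin ⟨i, hi⟩ : Fin S.card) : ℕ) < S.card := (S.equivFin ⟨i, hi⟩).2
  refine ⟨⟨S.equivFin ⟨i, hi⟩, lt_of_lt_of_le hlt hS⟩, ?_⟩
  simp [hlt]

/-- Membership in a Galois closed group can be tested on orbits of colourings. -/
lemma mem_of_orbits {n k : ℕ} {G : Subgroup (Perm (Fin n))} (hG : GaloisClosed n k G)
    (σ : Perm (Fin n))
    (h : ∀ a : Fin n → Fin k, ∃ g ∈ G, ∀ i, a (σ i) = a (g i)) : σ ∈ G := by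
  obtain ⟨F, hF⟩ := hG
  rw [hF]
  intro f hf a
  obtain ⟨g, hg, hag⟩ := h a
  rw [show (fun i => a (σ i)) = fun i => a (g i) from funext hag]
  exact (hF g).1 hg f hf a

/-- A group which is determined by its orbits on colourings is Galois closed. -/
lemma galoisClosed_of_orbits {n k : ℕ} (hk : 2 ≤ k) (G : Subgroup (Perm (Fin n)))
    (h : ∀ σ : Perm (Fin n),
      (∀ a : Fin n → Fin k, ∃ g ∈ G, ∀ i, a (σ i) = a (g i)) → σ ∈ G) :
    GaloisClosed n k G := by
  classical
  refine ⟨{f | ∀ g ∈ G, ∀ a : Fin n → Fin k, f (fun i => a (g i)) = f a}, fun σ =>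
    ⟨fun hσ f hf a => hf σ hσ a, fun hσ => h σ fun a => ?_⟩⟩
  let f : (Fin n → Fin k) → Fin k := fun x =>
    if ∃ g ∈ G, ∀ i, x i = a (g i) then ⟨0, by omega⟩ else ⟨1, by omega⟩
  have hf : ∀ g ∈ G, ∀ x : Fin n → Fin k, f (fun i => x (g i)) = f x := by
    intro g hg x
    have hiff : (∃ g' ∈ G, ∀ i, x (g i) = a (g' i)) ↔ (∃ g' ∈ G, ∀ i, x i = a (g' i)) := by
      constructor
      · rintro ⟨g', hg', hx⟩
        refine ⟨g' * g⁻¹, G.mul_mem hg' (G.inv_mem hg), fun i => ?_⟩
        have := hx (g⁻¹ i)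
        simpa using this
      · rintro ⟨g', hg', hx⟩
        exact ⟨g' * g, G.mul_mem hg' hg, fun i => by simpa using hx (g i)⟩
    simp only [f, hiff]
  have h1 := hσ f hf a
  have h2 : f a = ⟨0, by omega⟩ := by
    simp only [f]
    rw [if_pos ⟨1, G.one_mem, fun i => rfl⟩]
  rw [h2] at h1
  by_contra hcon
  have h3 : f (fun i => a (σ i)) = ⟨1, by omega⟩ := by
    simp only [f]
    rw [if_neg hcon]
  rw [h3] at h1
  exact absurd (congrArg Fin.val h1) (by simp)

/-- The upper bound. -/
lemma upper (n k : ℕ) (hn : 2 ≤ n) (hk : 2 ≤ k) (G : Subgroup (Perm (Fin n)))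
    (hG : GaloisClosed n k G) : MClosed n (n * (k - 1) / k) G := by
  classical
  refine ⟨{ρ | ∀ g ∈ G, ∀ r ∈ ρ, (fun i => g (r i)) ∈ ρ}, fun σ =>
    ⟨fun hσ ρ hρ r hr => hρ σ hσ r hr, fun hσ => mem_of_orbits hG σ fun a => ?_⟩⟩
  -- a large colour class
  obtain ⟨c, hc⟩ : ∃ c : Fin k, (n - 1) / k < (Finset.univ.filter fun i => a i = c).card := by
    have hmul : Fintype.card (Fin k) * ((n - 1) / k) < Fintype.card (Fin n) := by
      simp only [Fintype.card_fin]
      have := Nat.mul_div_le (n - 1) k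
      omega
    exact Fintype.exists_lt_card_fiber_of_mul_lt_card a hmul
  have hcard : (Finset.univ.filter fun i => ¬ a (σ i) = c).card ≤ n * (k - 1) / k := by
    have h1 : (Finset.univ.filter fun i => a (σ i) = c).card
        = (Finset.univ.filter fun i => a i = c).card := by
      refine Finset.card_bij (fun i _ => σ i) ?_ ?_ ?_
      · intro i hi
        simpa using hi
      · intro i _ j _ hij
        exact σ.injective hij
      · intro j hj
        exact ⟨σ⁻¹ j, by simpa using hj, by simp⟩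
    have h2 := Finset.card_filter_add_card_filter_not (s := (Finset.univ : Finset (Fin n)))
      (fun i => a (σ i) = c)
    rw [Finset.card_univ, Fintype.card_fin] at h2
    have h3 := arith n k (by omega) (by omega)
    omega
  obtain ⟨r, hr⟩ := exists_tuple (by omega) _ hcard
  obtain ⟨g, hg, hgr⟩ : ∃ g ∈ G, ∀ j, σ (r j) = g (r j) := by
    have := hσ {s | ∃ g ∈ G, ∀ j, s j = g (r j)} (by
      rintro g hg s ⟨g', hg', hs⟩
      exact ⟨g * g', G.mul_mem hg hg', fun j => by simp [hs j]⟩) r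
      ⟨1, G.one_mem, fun j => rfl⟩
    exact this
  have hagree : ∀ i, a (σ i) ≠ c → σ i = g i := by
    intro i hi
    obtain ⟨j, hj⟩ := hr i (by simpa using hi)
    rw [← hj]
    exact hgr j
  refine ⟨g, hg, fun i => ?_⟩
  by_cases hi : a (σ i) = c
  · rw [hi]
    by_contra hne
    have hne' : a (g i) ≠ c := fun h => hne h.symm
    have h4 := hagree (σ⁻¹ (g i)) (by simpa using hne')
    have h5 : g i = g (σ⁻¹ (g i)) := by simpa using h4
    have h6 : i = σ⁻¹ (g i) := g.injective h5
    have h7 : σ i = g i := by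
      conv_lhs => rw [h6]
      simp
    rw [h7] at hi
    exact hne' hi
  · rw [hagree i hi]

/-- The group of even permutations preserving the blocks of `k` consecutive points. -/
def evenBlock (n k : ℕ) : Subgroup (Perm (Fin n)) where
  carrier := {σ | (∀ i, ((σ i : Fin n) : ℕ) / k = (i : ℕ) / k) ∧ Perm.sign σ = 1}
  one_mem' := ⟨fun _ => rfl, by simp⟩
  mul_mem' := by
    rintro σ τ ⟨h1, h2⟩ ⟨h3, h4⟩
    exact ⟨fun i => by rw [Perm.mul_apply, h1, h3], by rw [map_mul, h2, h4, one_mul]⟩
  inv_mem' := by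
    rintro σ ⟨h1, h2⟩
    exact ⟨fun i => by simpa using (h1 (σ⁻¹ i)).symm, by rw [map_inv, h2, inv_one]⟩

lemma evenBlock_closed (n k : ℕ) (hk : 2 ≤ k) : GaloisClosed n k (evenBlock n k) := by
  classical
  refine galoisClosed_of_orbits hk _ fun σ h => ?_
  have hb : ∀ i, ((σ i : Fin n) : ℕ) / k = (i : ℕ) / k := by
    intro i
    obtain ⟨g, hg, hag⟩ := h (fun j => if (j : ℕ) / k = (i : ℕ) / k then ⟨1, by omega⟩
      else ⟨0, by omega⟩)
    have h1 := hag i
    rw [if_pos (hg.1 i)] at h1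
    by_contra hne
    rw [if_neg hne] at h1
    exact absurd (congrArg Fin.val h1) (by simp)
  obtain ⟨g, hg, hag⟩ := h (fun j => ⟨(j : ℕ) % k, Nat.mod_lt _ (by omega)⟩)
  have hσg : σ = g := by
    ext i
    have h1 : ((σ i : Fin n) : ℕ) % k = ((g i : Fin n) : ℕ) % k := congrArg Fin.val (hag i)
    have h2 : ((σ i : Fin n) : ℕ) / k = ((g i : Fin n) : ℕ) / k := by rw [hb i, hg.1 i]
    rw [← Nat.div_add_mod ((σ i : Fin n) : ℕ) k, ← Nat.div_add_mod ((g i : Fin n) : ℕ) k, h1, h2]
  rw [hσg]
  exact hg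

lemma evenBlock_not_mClosed (n k m : ℕ) (hn : 2 ≤ n) (hk : 2 ≤ k)
    (hm : m < n * (k - 1) / k) : ¬ MClosed n m (evenBlock n k) := by
  classical
  rintro ⟨R, hR⟩
  let x0 : Fin n := ⟨0, by omega⟩
  let x1 : Fin n := ⟨1, by omega⟩
  have h01 : x0 ≠ x1 := fun h => absurd (congrArg Fin.val h) (by simp [x0, x1])
  have swap_block : ∀ x y : Fin n, (x : ℕ) / k = (y : ℕ) / k →
      ∀ i, ((swap x y i : Fin n) : ℕ) / k = (i : ℕ) / k := by
    intro x y hxy i
    rw [swap_apply_def]
    split_ifs with h1 h2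
    · rw [h1, hxy]
    · rw [h2, hxy]
    · rfl
  have hb01 : (x0 : ℕ) / k = (x1 : ℕ) / k := by
    simp only [x0, x1]
    rw [Nat.div_eq_of_lt (by omega), Nat.div_eq_of_lt (by omega)]
  have hmem : swap x0 x1 ∈ evenBlock n k := by
    rw [hR]
    intro ρ hρ r hr
    -- two unlisted points in one block
    have hcard : ((n - 1) / k + 1) < (Finset.univ \ (Finset.univ.image
        fun j => swap x0 x1 (r j))).card := by
      have h1 : (Finset.univ.image fun j => swap x0 x1 (r j)).card ≤ m :=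
        le_trans Finset.card_image_le (by simp)
      have h2 := Finset.le_card_sdiff (Finset.univ.image fun j => swap x0 x1 (r j))
        (Finset.univ : Finset (Fin n))
      rw [Finset.card_univ, Fintype.card_fin] at h2
      have h3 := arith n k (by omega) (by omega)
      omega
    obtain ⟨x, hx, y, hy, hxy, hxyb⟩ := Finset.exists_ne_map_eq_of_card_lt_of_maps_to
      (t := Finset.range ((n - 1) / k + 1)) (by rw [Finset.card_range]; exact hcard)
      (f := fun i : Fin n => (i : ℕ) / k) (by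
        intro i _
        simp only [Finset.coe_range, Set.mem_Iio]
        have : (i : ℕ) / k ≤ (n - 1) / k := Nat.div_le_div_right (by have := i.2; omega)
        omega)
    have hxr : ∀ j, swap x0 x1 (r j) ≠ x := by
      intro j hj
      simp only [Finset.mem_sdiff, Finset.mem_univ, Finset.mem_image, true_and, not_exists] at hx
      exact hx j hj
    have hyr : ∀ j, swap x0 x1 (r j) ≠ y := by
      intro j hj
      simp only [Finset.mem_sdiff, Finset.mem_univ, Finset.mem_image, true_and, not_exists] at hy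
      exact hy j hj
    have hg : swap x y * swap x0 x1 ∈ evenBlock n k := by
      refine ⟨fun i => ?_, ?_⟩
      · rw [Perm.mul_apply, swap_block x y hxyb, swap_block x0 x1 hb01]
      · rw [map_mul, Perm.sign_swap hxy, Perm.sign_swap h01]
        rfl
    have := (hR _).1 hg ρ hρ r hr
    have heq : (fun i => (swap x y * swap x0 x1) (r i)) = fun i => swap x0 x1 (r i) := by
      funext j
      rw [Perm.mul_apply, swap_apply_of_ne_of_ne (hxr j) (hyr j)]
    rwa [heq] at this
  have := hmem.2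
  rw [Perm.sign_swap h01] at this
  exact absurd this (by decide)

/-- **Determination of `w(n, k)`.** For all `n, k ≥ 2`, the least `m ≥ 1` such that every subgroup
of `S_n` which is Galois closed over a `k`-element set is `m`-closed is `⌊n (k - 1) / k⌋`, that is
`n - ⌈n / k⌉`. -/
theorem result (n k : ℕ) (hn : 2 ≤ n) (hk : 2 ≤ k) :
    IsLeast {m : ℕ | 1 ≤ m ∧ ∀ G : Subgroup (Perm (Fin n)), GaloisClosed n k G → MClosed n m G}
      (n * (k - 1) / k) := by
  refine ⟨⟨?_, fun G hG => upper n k hn hk G hG⟩, ?_⟩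
  · rw [Nat.le_div_iff_mul_le (by omega), one_mul]
    obtain ⟨k, rfl⟩ : ∃ k', k = k' + 2 := ⟨k - 2, by omega⟩
    have : 2 * (k + 1) ≤ n * (k + 1) := Nat.mul_le_mul_right _ hn
    simp only [show k + 2 - 1 = k + 1 by omega]
    omega
  · rintro m ⟨_, hm⟩
    by_contra hlt
    rw [not_le] at hlt
    exact evenBlock_not_mClosed n k m hn hk hlt (hm _ (evenBlock_closed n k hk))

end Pool.Agent.Results.MP_4c291d_al.ClosureThreshold
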